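import Pool.Agent.H77.Z4.Nor6

/-!
# The static chains, from no boxes at the windows with one contact coordinate

`hc0_b`: the windows with a rough coordinate faster than the target do not exist, from no boxes
without ties and with ties at the top speed, both only if the other coordinates of the base have
slopes larger than one (`VAll (NtO n)`, `VAll (TopC n)`). `nore_ind7`: the static chains.
-/

set_option autoImplicit false

namespace Pool.SW

open MeasureTheory Set Filter Topology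
open Pool.Agent.H49.Ent Pool.Agent.H32.Dense Pool.STK Pool.KA Pool.KSAT Pool.K2S Pool.PB Pool.S6C
open Pool.GEN Pool.ONE Pool.EXW Pool.TOP Pool.ZCL Pool.ZLC Pool.ZFN Pool.ZCO Pool.PKG Pool.CHT
open Pool.Z4 Pool.ZL
open Pool.LEV (Law)

variable {n : ℕ}

/-- The other coordinates of the base have slopes larger than one. -/
def OneS (n : ℕ) (s : Fin (n - 1) → ℝ) : Prop := ∀ i : Fin (n - 1), 1 ≤ (i : ℕ) → 1 < s i

/-- No ties, and the other coordinates of the base have slopes larger than one. -/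
def NtO (n : ℕ) (s : Fin (n - 1) → ℝ) (σ : ℝ) : Prop := NoTie n s σ ∧ OneS n s

theorem ntO_meas (n : ℕ) : MeasurableSet {p : (Fin (n - 1) → ℝ) × ℝ | NtO n p.1 p.2} := by
  have h1 : {p : (Fin (n - 1) → ℝ) × ℝ | NtO n p.1 p.2} =
      {p : (Fin (n - 1) → ℝ) × ℝ | NoTie n p.1 p.2} ∩
      ⋂ i : Fin (n - 1), {p : (Fin (n - 1) → ℝ) × ℝ | 1 ≤ (i : ℕ) → 1 < p.1 i} := by
    ext p
    simp only [NtO, OneS, Set.mem_ofPred_eq, Set.mem_iInter, Set.mem_inter_iff]
  rw [h1]
  refine (noTie_meas n).inter (MeasurableSet.iInter fun i => ?_)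
  by_cases hi : 1 ≤ (i : ℕ)
  · simp only [hi, true_imp_iff]
    exact measurableSet_lt measurable_const ((measurable_pi_apply i).comp measurable_fst)
  · simp only [hi, false_imp_iff]
    exact MeasurableSet.univ

variable {hn : 2 ≤ n} {S : PCl n} {P : ℝ → ℝ → ℝ} {r : ℝ → ℝ}
  {P' : ℕ → List (Fin n) × Fin n → ℝ → ℝ → ℝ} {Λ : Finset (Fin n) → Fin n → ℝ → ℝ → ℝ}
  {PB : ℕ → List (Fin n) × Fin n → ℝ → ℝ → ℝ}

/-- **The windows with a rough coordinate of slope larger than the slope of the target**: there are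
none. -/
theorem hc0_b (H : PkT hn S P r P' Λ PB) (hTop : TopS n) (hF1 : FZX 1) (hF : FZX (n - 1))
    (hn4 : n ≤ 4) (hW : ∀ k, 2 ≤ k → k < n → RW k) (hV : VAll hn hTop hF (NtO n))
    (hT : n = 4 → VAll hn hTop hF (TopC n)) {h : ℝ} (hh : 0 ≤ h) {Y : Od n → ℝ → Prop}
    (hMev : ∀ (o : Od n) (l : ℕ), 1 ≤ l → l < n - 1 →
      MevY hn S P r P' Λ o l (fun g => RwH H hTop hF h o g ∧ Xa hn P P' PB o l g ∧ Y o g))
    (o : Od n) (l : ℕ) :
    ∀ᵐ g : ℝ, RwH H hTop hF h o g → Xa hn P P' PB o l g → Y o g →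
      deriv (fun a => P a a) g < deriv (fun a => LL hn P P' o (l + 1) a a) g → False := by
  have eP : LL hn P P' o (n - 1 + 1) = P := by
    rw [← lvL_eq o le_rfl]
    funext a w
    exact LvL_top o a w
  have h1 := hc0_cY H hTop hF1 hF hn4 hW (ntO_meas n) hV hh
    (X := fun o l g => RwH H hTop hF h o g ∧ Xa hn P P' PB o l g ∧ Y o g) hMev o l
  have h2 : ∀ᵐ g : ℝ, n = 4 → RwH H hTop hF h o g → Pool.Z4.Cfg hn P P' o l g →
      (RwH H hTop hF h o g ∧ Xa hn P P' PB o l g ∧ Y o g) →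
      Cok (TopC n) (fun j => deriv (fun v => LL hn P P' o (ix l j + 1) v v) g)
        (deriv (fun v => LL hn P P' o (l + 1) v v) g) → False := by
    by_cases h4 : n = 4
    · filter_upwards [hc0_cY H hTop hF1 hF hn4 hW (topC_meas n) (hT h4) hh
        (X := fun o l g => RwH H hTop hF h o g ∧ Xa hn P P' PB o l g ∧ Y o g) hMev o l]
        with g k _
      exact k
    · exact Eventually.of_forall fun g h5 => absurd h5 h4
  filter_upwards [h1, h2] with g k1 k2 R hX hY hlt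
  have hl1 := hX.cfg.l1
  have hln := hX.cfg.ln
  by_cases htie : ∃ i, 1 ≤ i ∧ i < n - 1 ∧ i ≠ l ∧
      deriv (fun a => LL hn P P' o (i + 1) a a) g = deriv (fun a => LL hn P P' o (l + 1) a a) g
  · -- a tie
    obtain ⟨i, i1, i2, i3, i4⟩ := htie
    have h4 : n = 4 := by omega
    refine k2 h4 R hX.cfg ⟨R, hX, hY⟩
      (cok_top (τ := fun i => deriv (fun v => LL hn P P' o (i + 1) v v) g) ?_ fun j j1 j2 j3 => ?_)
    · have := hX.two
      linarith
    · have htwo := hX.two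
      rcases j2.eq_or_lt with h5 | h5
      · subst h5
        show 2 ≤ deriv (fun v => LL hn P P' o (n - 1 + 1) v v) g ∧
          deriv (fun v => LL hn P P' o (n - 1 + 1) v v) g ≤ _
        rw [eP]
        exact ⟨htwo, hlt.le⟩
      · have h6 : j = i := by omega
        rw [h6]
        show 2 ≤ deriv (fun v => LL hn P P' o (i + 1) v v) g ∧
          deriv (fun v => LL hn P P' o (i + 1) v v) g ≤ _
        rw [i4]
        exact ⟨by linarith, le_rfl⟩
  · push Not at htie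
    refine k1 R hX.cfg ⟨R, hX, hY⟩ fun s h2 h3 => ⟨fun i => ?_, fun i hi => ?_⟩
    · rcases Nat.eq_zero_or_pos (i : ℕ) with h5 | h5
      · rw [h2 i h5]
        exact hX.cfg.one.ne
      · obtain ⟨j, hj1, hj2, hj3⟩ := h3 i h5
        rw [hj3]
        show deriv (fun v => LL hn P P' o (ix l j + 1) v v) g ≠ _
        have h6 : 1 ≤ ix l j := by
          unfold ix
          split_ifs <;> omega
        have h7 : ix l j ≠ l := by
          unfold ix
          split_ifs <;> omega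
        rcases (ix_le (l := l) hj2).eq_or_lt with h8 | h8
        · rw [h8, eP]
          exact hlt.ne
        · exact htie _ h6 h8 h7
    · obtain ⟨j, hj1, hj2, hj3⟩ := h3 i hi
      rw [hj3]
      show 1 < deriv (fun v => LL hn P P' o (ix l j + 1) v v) g
      have h6 : 1 ≤ ix l j := by
        unfold ix
        split_ifs <;> omega
      rcases (ix_le (l := l) hj2).eq_or_lt with h8 | h8
      · rw [h8, eP]
        linarith [hX.two]
      · exact hX.one1 _ h6 h8

end Pool.SW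

namespace Pool.Z4

open MeasureTheory Set Filter Topology
open Pool.Agent.H49.Ent Pool.Agent.H32.Dense Pool.STK Pool.KA Pool.KSAT Pool.K2S Pool.PB
open Pool.GEN Pool.S6C Pool.STAT Pool.CHT Pool.GRW Pool.ONE Pool.STA Pool.PKG Pool.ZFN Pool.TOP
open Pool.LBT (LSys ThrOf)
open Pool.LEV (Law Lv)
open Pool.ALL (RateOf)
open Pool.STR (NumI StaAt ThinAt SteepAt MicW)
open Pool.EXW
open Pool.SW (Xa NtO TopC hc0_b)

variable {n : ℕ} {hn : 2 ≤ n} {S : PCl n} {P : ℝ → ℝ → ℝ} {r : ℝ → ℝ}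
  {P' : ℕ → List (Fin n) × Fin n → ℝ → ℝ → ℝ} {Λ : Finset (Fin n) → Fin n → ℝ → ℝ → ℝ}
  {PB : ℕ → List (Fin n) × Fin n → ℝ → ℝ → ℝ}

/-- **The static chains** in the induction over the dimension (`n ≤ 4`), from no boxes at the windows
with one contact coordinate. -/
theorem nore_ind7 {η : ℝ → ℝ} (hMic : LocE n η MicRt) (hi : ∀ k, 2 ≤ k → k < n → Ext0 k)
    (hn : 2 ≤ n) (hn4 : n ≤ 4) (hZ : ∀ k, 1 ≤ k → k < n → FZX k) (hF : FZX (n - 1))
    (hTop : TopS n)
    {D : ℝ} (hD : 0 < D) (hD1 : D ≤ 1) (hη : 0 < η D) (hη1 : η D ≤ 1)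
    (hE : Ext n ((1 + η D) * D)) (H : PkT hn S P r P' Λ PB)
    (hV : V0C H hTop hF ((1 - η D) * D))
    (hbig : ∀ o : Od n, ∀ᵐ g : ℝ, RwH H hTop hF ((1 - η D) * D) o g →
      1 < deriv (fun a => P a a) g → StaAt P g → One1 hn P P' o g → ∀ i, 1 ≤ i → i < n - 1 →
      (∀ l < i, ThS hn P P' PB o l g) →
      2 < deriv (fun a => LL hn P P' o (i + 1) a a) g →
      SteepAt 2 (LvT hn PB o i) g → StaAt (LL hn P P' o (i + 1)) g)
    (hVn : VAll hn hTop hF (NtO n)) (hT : n = 4 → VAll hn hTop hF (TopC n))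
    {Y : Od n → ℝ → Prop}
    (hY : ∀ o : Od n, ∀ᵐ g : ℝ, g ∈ Gs P r P' Λ o → Y o g)
    (hMev : ∀ (o : Od n) (l : ℕ), 1 ≤ l → l < n - 1 → MevY hn S P r P' Λ o l
        (fun g => RwH H hTop hF ((1 - η D) * D) o g ∧ Xa hn P P' PB o l g ∧ Y o g)) :
    NoRE H hTop hF ((1 - η D) * D) := by
  have h1 : (1 - η D) * D < 1 := by nlinarith
  have h0 : 0 ≤ (1 - η D) * D := mul_nonneg (by linarith) hD.le
  have hW := rw_all hZ fun k k1 k2 => rowN_of_ext (hi k k1 k2)
  refine nore_of5 H hTop hF h0 (mic_pk hMic hn hZ hD hD1 hE H.toPk) hV hbig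
    (fun o l => ?_) fun o l => ?_
  · filter_upwards [cnt_mevY H hTop (hZ 1 le_rfl (by omega)) hF hW h0 h1
      (fun al g₀ hal hg₀ N S' P r h2 h3 h4 E =>
        rgFull_locRt hMic hn hZ hD hD1 hη1 hE hal hg₀ h2 h3 h4 E) hMev o l, hY o]
      with g k1 k2 R hX
    exact k1 R.rwd.mem hX.cfg ⟨R, ⟨hX.sta, hX.two, hX.one1, hX.ths, hX.cfg⟩, k2 R.rwd.mem⟩
  · filter_upwards [hc0_b H hTop (hZ 1 le_rfl (by omega)) hF hn4 hW hVn hT h0 hMev o l, hY o]
      with g k1 k2 R a1 a2 a3 a4 a5 a6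
    exact k1 R ⟨a1, a2, a3, a4, a5⟩ (k2 R.rwd.mem) a6

end Pool.Z4
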