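import Pool.Agent.H56.NB.Nob
import Pool.Agent.H56.NB.Nore7
import Pool.Agent.H56.ASM.Sk8

/-!
# No boxes, from windows without boxes

`noB_ties`: no boxes in a class, from exactness at the windows without ties and no boxes at the
windows with ties. `ExA C`, `NbA C`: exactness, no boxes at the rough windows with ties, with slopes
in `C`, for all packages and rates. `vAll_n`, `vAll_t`: no boxes for all packages.
-/

set_option autoImplicit false

namespace Pool.PKG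

open MeasureTheory Set Filter Topology
open Pool.Agent.H49.Ent Pool.Agent.H32.Dense Pool.STK Pool.KA Pool.KSAT Pool.K2S Pool.PB
open Pool.GEN Pool.S6C Pool.STAT Pool.CHT Pool.GRW Pool.ONE Pool.STA
open Pool.LBT (LSys ThrOf)
open Pool.LEV (Law Lv)
open Pool.ALL (RateOf)
open Pool.TOP (TopS)
open Pool.RTS (iso Diag)
open Pool.STR (NumI CellD RowD NfB AffB Rle Nw ThinAt SteepAt StaAt)
open Pool.CHB (chsysB)
open Pool.STAT.CLO Pool.MIC6
open Pool.P4 (NFc1)
open Pool.SW (Rgh NtO OneS NoTie TopC)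

variable {n : ℕ} {hn : 2 ≤ n} {S : PCl n} {P : ℝ → ℝ → ℝ} {rr : ℝ → ℝ}
  {P' : ℕ → List (Fin n) × Fin n → ℝ → ℝ → ℝ} {Λ : Finset (Fin n) → Fin n → ℝ → ℝ → ℝ}
  {PB : ℕ → List (Fin n) × Fin n → ℝ → ℝ → ℝ}
  {H : PkT hn S P rr P' Λ PB} {hTop : TopS n} {hF : FZX (n - 1)} {h x : ℝ}
  {ρ' : ℝ → ℝ} {hρ : Rle rr ρ'}

/-- **No boxes in a class**, from exactness at the windows without ties, and no boxes at the windows
with a tie. -/
theorem noB_ties (hh : 0 < h) (hh1 : h ≤ 1) (hV : MicOf CondV)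
    (hB : ∀ o : Od n, ∀ᵐ g : ℝ, RwH H hTop hF h o g → 1 < deriv (fun a => P a a) g →
      (∃ l, 1 ≤ l ∧ l < n - 1 ∧ deriv (fun a => LL hn P P' o (l + 1) a a) g =
        deriv (fun a => P a a) g) → BigS hn P P' PB o g)
    (hE : ExB H hTop hF (H.rle h) h fun o g => 1 < slN hn P P' o (n - 1) g ∧ NtW hn P P' o g)
    (hT : NoB H hTop hF (H.rle h) h (TieT hn P P' PB)) :
    ∃ p : ((H.nk hTop hF).chg (H.rle h) H.up).Par, p.cell.NoBS := by
  refine NoB.noBS (h := h) ((((noB_D (hρ := H.rle h) (h := h)).or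
    (noB_S (hρ := H.rle h) (h := h))).or ((noB_V hV hh hh1 hE).or hT)).mono fun o => ?_)
    (rt_def H.rate.lip H.rate.mono h) hh
  filter_upwards [hB o, H.rwH_chg hTop hF h o, one_zero H hTop hF o,
      Pool.Z4.ths_of H hTop hF, H.mac_of H.pble hTop hF fun Sb del h1 h2 =>
        evTC (n - 1) (by omega) Sb del h1 h2] with g kB kR k0 kths kmac R _
  have RH := kR R
  have ho := RH.rwd.mem
  rcases le_or_gt (slN hn P P' o (n - 1) g) 1 with h1 | h1
  · exact Or.inl (Or.inl (Or.inl h1))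
  by_cases htie : ∃ l, l < n - 1 ∧ slN hn P P' o l g = slN hn P P' o (n - 1) g
  swap
  · have h2 : NtW hn P P' o g := fun l hl h2 => htie ⟨l, hl, h2⟩
    exact Or.inr (Or.inl ⟨h2, h1, h2⟩)
  have htie' : ∃ l, 1 ≤ l ∧ l < n - 1 ∧ slN hn P P' o l g = slN hn P P' o (n - 1) g := by
    obtain ⟨l, hl, h2⟩ := htie
    rcases Nat.eq_zero_or_pos l with h3 | h3
    · have h6 : slN hn P P' o 0 g = 1 := by
        rw [slN_lvl o (by omega)]
        exact k0 ho
      rw [h3, h6] at h2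
      linarith
    · exact ⟨l, h3, hl, h2⟩
  have hbig := kB RH (by rwa [← slN_tar (P' := P') o g]) (by
    obtain ⟨l, h2, h3, h6⟩ := htie'
    refine ⟨l, h2, h3, ?_⟩
    rw [← slN_ll o h3.le, h6, slN_tar])
  have hths := kths o ho hbig
  rcases kmac o ho hths with hthin | hst
  · exact Or.inr (Or.inr ⟨h1, htie', hthin, hths⟩)
  · exact Or.inl (Or.inr hst)

/-- **Exactness** at the windows with slopes in `C`, for all packages and rates. -/
def ExA (hn : 2 ≤ n) (hTop : TopS n) (hF : FZX (n - 1)) (C : (Fin (n - 1) → ℝ) → ℝ → Prop) :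
    Prop :=
  ∀ (S : PCl n) (P : ℝ → ℝ → ℝ) (r : ℝ → ℝ) (P' : ℕ → List (Fin n) × Fin n → ℝ → ℝ → ℝ)
    (Λ : Finset (Fin n) → Fin n → ℝ → ℝ → ℝ) (PB : ℕ → List (Fin n) × Fin n → ℝ → ℝ → ℝ)
    (H : PkT hn S P r P' Λ PB) (h : ℝ), 0 < h → h ≤ 1 → ∀ (ρ : ℝ → ℝ) (hρ : Rle r ρ),
    (∀ᵐ Q : ℝ, deriv ρ Q < 1 → h ≤ 1 - deriv r Q) →
    ExB H hTop hF hρ h fun o g => C (slo H hTop hF o g) (deriv (fun a => P a a) g)

/-- **No boxes at the rough windows with a tie** and slopes in `C`, for all packages and rates. -/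
def NbA (hn : 2 ≤ n) (hTop : TopS n) (hF : FZX (n - 1)) (C : (Fin (n - 1) → ℝ) → ℝ → Prop) :
    Prop :=
  ∀ (S : PCl n) (P : ℝ → ℝ → ℝ) (r : ℝ → ℝ) (P' : ℕ → List (Fin n) × Fin n → ℝ → ℝ → ℝ)
    (Λ : Finset (Fin n) → Fin n → ℝ → ℝ → ℝ) (PB : ℕ → List (Fin n) × Fin n → ℝ → ℝ → ℝ)
    (H : PkT hn S P r P' Λ PB) (h : ℝ), 0 < h → h ≤ 1 → ∀ (ρ : ℝ → ℝ) (hρ : Rle r ρ),
    (∀ᵐ Q : ℝ, deriv ρ Q < 1 → h ≤ 1 - deriv r Q) →
    NoB H hTop hF hρ h fun o g => g ∈ Rgh P ∧ C (slo H hTop hF o g) (deriv (fun a => P a a) g) ∧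
      ∃ i, slo H hTop hF o g i = deriv (fun a => P a a) g

/-- The slopes larger than one, besides the first. -/
def OneC (n : ℕ) (s : Fin (n - 1) → ℝ) (σ : ℝ) : Prop := 1 < σ ∧ OneS n s

theorem slo_slN (H : PkT hn S P rr P' Λ PB) (o : Od n) (g : ℝ) (i : Fin (n - 1)) :
    slo H hTop hF o g i = slN hn P P' o i g :=
  (slN_dg H hTop hF o i.2.le g).symm

theorem noTie_ntW (H : PkT hn S P rr P' Λ PB) {o : Od n} {g : ℝ}
    (h1 : NoTie n (slo H hTop hF o g) (deriv (fun a => P a a) g)) : NtW hn P P' o g := by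
  intro l hl h2
  refine h1 ⟨l, hl⟩ ?_
  rw [slo_slN, h2, slN_tar]

/-- **No boxes without ties** at the windows with one contact coordinate, for all packages. -/
theorem vAll_n (hV : MicOf CondV) (hE : ExA hn hTop hF (OneC n)) : VAll hn hTop hF (NtO n) := by
  intro S P r P' Λ PB H h h0 h1 ρ hρ hrow hW
  have h2 := hE S P r P' Λ PB H h h0 h1 ρ hρ hrow
  obtain ⟨p, hp⟩ := NoB.noBS (h := h) (((noB_D (hρ := hρ) (h := h)).or
    (noB_V (P := P) hV h0 h1 h2)).mono fun o => by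
      filter_upwards [hW o] with g k1 R _
      obtain ⟨-, h3, h4⟩ := k1 R
      rcases le_or_gt (slN hn P P' o (n - 1) g) 1 with h5 | h5
      · exact Or.inl (Or.inl h5)
      · exact Or.inr ⟨noTie_ntW H h3, by rwa [slN_tar] at h5, h4⟩) hrow h0
  exact ⟨p, Or.inr hp⟩

/-- **No boxes at the windows with slopes in `C`**, for all packages, from exactness and the ties. -/
theorem vAll_t (hV : MicOf CondV) (hE : ExA hn hTop hF (OneC n))
    {C : (Fin (n - 1) → ℝ) → ℝ → Prop} (hC : ∀ s σ, C s σ → OneS n s)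
    (hT : NbA hn hTop hF C) : VAll hn hTop hF C := by
  intro S P r P' Λ PB H h h0 h1 ρ hρ hrow hW
  have h2 := hE S P r P' Λ PB H h h0 h1 ρ hρ hrow
  have h3 := hT S P r P' Λ PB H h h0 h1 ρ hρ hrow
  obtain ⟨p, hp⟩ := NoB.noBS (h := h) ((((noB_D (hρ := hρ) (h := h)).or
    (noB_V (P := P) hV h0 h1 h2)).or h3).mono fun o => by
      filter_upwards [hW o] with g k1 R _
      obtain ⟨h4, h5⟩ := k1 R
      by_cases ht : ∃ i, slo H hTop hF o g i = deriv (fun a => P a a) g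
      · exact Or.inr ⟨h4, h5, ht⟩
      rcases le_or_gt (slN hn P P' o (n - 1) g) 1 with h6 | h6
      · exact Or.inl (Or.inl (Or.inl h6))
      · refine Or.inl (Or.inr ⟨noTie_ntW H fun i hi => ht ⟨i, hi⟩, ?_, hC _ _ h5⟩)
        rwa [slN_tar] at h6) hrow h0
  exact ⟨p, Or.inr hp⟩

/-- No windows with slopes in `C` and a tie. -/
theorem nbA_of {C : (Fin (n - 1) → ℝ) → ℝ → Prop} (hT : Pool.SW.TieO hn hTop hF C) :
    NbA hn hTop hF C := by
  intro S P r P' Λ PB H h h0 h1 ρ hρ hrow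
  refine noB_false fun o => ?_
  filter_upwards [hT S P r P' Λ PB H h h0 h1 ρ hρ hrow o] with g k R hx
  exact k R hx.1 hx.2.1 hx.2.2

theorem topC_one (n : ℕ) (s : Fin (n - 1) → ℝ) (σ : ℝ) (h : TopC n s σ) : OneS n s :=
  fun i hi => by linarith [(h.2 i).2 hi]

end Pool.PKG
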