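import Pool.Agent.H56.NB.All
import Pool.Agent.H95.TS.Ths

/-!
# No boxes, from the thin windows without boxes

The target is thin or steep at almost every window (`mac_all` of `H95/TS`), so only the windows where
it is thin are of interest: `noB_thin`. `noB_parts`: the thin windows: no tie and one contact
coordinate, no tie and more contact coordinates, a tie at the top speed, a tie and a faster
coordinate.
-/

set_option autoImplicit false

namespace Pool.PKG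

open MeasureTheory Set Filter Topology
open Pool.Agent.H49.Ent Pool.Agent.H32.Dense Pool.STK Pool.KA Pool.KSAT Pool.K2S Pool.PB
open Pool.GEN Pool.S6C Pool.STAT Pool.CHT Pool.GRW Pool.ONE Pool.STA
open Pool.LBT (LSys ThrOf)
open Pool.LEV (Law Lv)
open Pool.ALL (RateOf)
open Pool.TOP (TopS)
open Pool.RTS (iso Diag)
open Pool.STR (NumI CellD RowD NfB AffB Rle Nw ThinAt SteepAt StaAt)
open Pool.CHB (chsysB)
open Pool.STAT.CLO Pool.MIC6
open Pool.P4 (NFc1)
open Pool.SW (Rgh NtO OneS NoTie TopC)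
open Pool.ASM (TopA rgh_thin)

variable {n : ℕ} {hn : 2 ≤ n} {S : PCl n} {P : ℝ → ℝ → ℝ} {rr : ℝ → ℝ}
  {P' : ℕ → List (Fin n) × Fin n → ℝ → ℝ → ℝ} {Λ : Finset (Fin n) → Fin n → ℝ → ℝ → ℝ}
  {PB : ℕ → List (Fin n) × Fin n → ℝ → ℝ → ℝ}
  {H : PkT hn S P rr P' Λ PB} {hTop : TopS n} {hF : FZX (n - 1)} {h x : ℝ}
  {ρ' : ℝ → ℝ} {hρ : Rle rr ρ'}

/-- A window with thin target of slope larger than one. -/
def ThW (hn : 2 ≤ n) (P : ℝ → ℝ → ℝ) (P' PB : ℕ → List (Fin n) × Fin n → ℝ → ℝ → ℝ) (o : Od n)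
    (g : ℝ) : Prop := 1 < slN hn P P' o (n - 1) g ∧ ThinAt P (PT hn PB o) g

/-- A coordinate of the base has the slope of the target. -/
def TiW (hn : 2 ≤ n) (P : ℝ → ℝ → ℝ) (P' : ℕ → List (Fin n) × Fin n → ℝ → ℝ → ℝ) (o : Od n)
    (g : ℝ) : Prop := ∃ l < n - 1, slN hn P P' o l g = slN hn P P' o (n - 1) g

/-- **No boxes in a class**, if the thin windows have no boxes. -/
theorem noB_thin (hT : NoB H hTop hF hρ h (ThW hn P P' PB))
    (hrow : ∀ᵐ Q : ℝ, deriv ρ' Q < 1 → h ≤ 1 - deriv rr Q) (hh : 0 < h) :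
    ∃ p : ((H.nk hTop hF).chg hρ H.up).Par, p.cell.NoBS := by
  refine NoB.noBS (h := h) ((((noB_D (hρ := hρ) (h := h)).or
    (noB_S (hρ := hρ) (h := h))).or hT).mono fun o => ?_) hrow hh
  filter_upwards [H.mac_all H.pble hTop hF] with g k1 R _
  rcases le_or_gt (slN hn P P' o (n - 1) g) 1 with h1 | h1
  · exact Or.inl (Or.inl (Or.inl h1))
  rcases k1 o R.mem with h2 | h2
  · exact Or.inr ⟨h1, h2⟩
  · exact Or.inl (Or.inr h2)

/-- The thin windows are rough. -/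
theorem ThW.rgh (H : PkT hn S P rr P' Λ PB) {o : Od n} {g : ℝ} (g0 : 0 < g) (g1 : g < 1)
    (hT : ThW hn P P' PB o g) : g ∈ Rgh P := rgh_thin H g0 g1 hT.2

/-- **The thin windows** from their parts. -/
theorem noB_parts (hV : MicOf CondV) (hh : 0 < h) (hh1 : h ≤ 1)
    (hE : ExB H hTop hF hρ h fun o g => OneC n (slo H hTop hF o g) (deriv (fun a => P a a) g))
    (h2 : NoB H hTop hF hρ h fun o g => ThW hn P P' PB o g ∧ NtW hn P P' o g ∧
      ¬ OneS n (slo H hTop hF o g))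
    (h3 : NoB H hTop hF hρ h fun o g => ThW hn P P' PB o g ∧ TiW hn P P' o g ∧
      TopA n (slo H hTop hF o g) (deriv (fun a => P a a) g))
    (h4 : NoB H hTop hF hρ h fun o g => ThW hn P P' PB o g ∧ TiW hn P P' o g ∧
      ¬ TopA n (slo H hTop hF o g) (deriv (fun a => P a a) g)) :
    NoB H hTop hF hρ h (ThW hn P P' PB) := by
  refine ((noB_V (P := P) (P' := P') hV hh hh1 hE).or (h2.or (h3.or h4))).mono fun o =>
    Eventually.of_forall fun g R hT => ?_
  by_cases hti : TiW hn P P' o g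
  · by_cases hA : TopA n (slo H hTop hF o g) (deriv (fun a => P a a) g)
    · exact Or.inr (Or.inr (Or.inl ⟨hT, hti, hA⟩))
    · exact Or.inr (Or.inr (Or.inr ⟨hT, hti, hA⟩))
  · have hnt : NtW hn P P' o g := fun l hl h5 => hti ⟨l, hl, h5⟩
    by_cases ho : OneS n (slo H hTop hF o g)
    · refine Or.inl ⟨hnt, ?_, ho⟩
      have := hT.1
      rwa [slN_tar] at this
    · exact Or.inr (Or.inl ⟨hT, hnt, ho⟩)

/-- A tie is at a coordinate besides the first. -/
theorem tie_of (H : PkT hn S P rr P' Λ PB) (hTop : TopS n) (hF : FZX (n - 1)) (o : Od n) :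
    ∀ᵐ g : ℝ, g ∈ Gs P rr P' Λ o → 1 < slN hn P P' o (n - 1) g → TiW hn P P' o g →
      ∃ l, 1 ≤ l ∧ l < n - 1 ∧ slN hn P P' o l g = slN hn P P' o (n - 1) g := by
  filter_upwards [one_zero H hTop hF o] with g k0 hg h1 h2
  obtain ⟨l, hl, h2⟩ := h2
  rcases Nat.eq_zero_or_pos l with h3 | h3
  · have h6 : slN hn P P' o 0 g = 1 := by
      rw [slN_lvl o (by omega)]
      exact k0 hg
    rw [h3, h6] at h2
    linarith
  · exact ⟨l, h3, hl, h2⟩

/-- **The windows with a tie and a faster coordinate**, from P4, P5 and the rest. -/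
theorem noB_fast (hh : 0 < h) (hh1 : h ≤ 1)
    (h4 : ∀ (K' : ℕ) (R : ℕ → Prop) (c : ℝ), 0 < c → MicX (XP4 K' 1 R x)
      (QT R (n - 1 + 1) c) (fun B => B = n + 2) (n - 1 + 1) K' h)
    (h5 : ∀ (K' : ℕ) (R : ℕ → Prop), MicX (XP4 K' 1 R x)
      (Q5 R (n - 1 + 1)) (fun B => B = n + 2) (n - 1 + 1) K' h)
    {PW : ℕ → List (Fin n) × Fin n → ℝ → ℝ → ℝ}
    (hPW : ∀ j, ThrOf (chsysB n none (P' j)) S (PW j)) {Y : Od n → ℝ → Prop}
    (hYO : ∀ o : Od n, ∀ᵐ g : ℝ, ((H.nk hTop hF).chg hρ H.up).RwD o g → Y o g →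
      OneC n (slo H hTop hF o g) (deriv (fun a => P a a) g) ∧ TieT hn P P' PB o g)
    (hE : ExB H hTop hF hρ h fun o g => OneC n (slo H hTop hF o g) (deriv (fun a => P a a) g))
    (hY : FcB H hTop hF hρ h x Y)
    (hL : NoB H hTop hF hρ h fun o g => Y o g ∧ ¬ CovW hn P P' PB o g) :
    NoB H hTop hF hρ h Y := by
  refine ((noB_P (H := H) (hρ := hρ) hh hh1 h4 h5 hPW hE hY).or hL).mono fun o => ?_
  filter_upwards [hYO o] with g k1 R hX
  obtain ⟨e1, e2⟩ := k1 R hX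
  by_cases hc : CovW hn P P' PB o g
  · exact Or.inl ⟨⟨e2, hc⟩, e1, hX⟩
  · exact Or.inr ⟨hX, hc⟩

end Pool.PKG
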