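import Pool.Agent.H78.MIC.BsC

/-!
# Windows without boxes

`NoB X`: the windows with the property `X` are covered by finitely many kinds without boxes.
`ExB X`, `FcB x X`: they are covered by finitely many kinds with exactness, with the closed lower
bound, on the boxes. `NoB.noBS`: no boxes in a class, if `NoB` holds for all windows.
`noB_D`, `noB_S`, `noB_V`, `noB_P`: windows without boxes.
-/

set_option autoImplicit false

namespace Pool.PKG

open MeasureTheory Set Filter Topology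
open Pool.Agent.H49.Ent Pool.Agent.H32.Dense Pool.STK Pool.KA Pool.KSAT Pool.K2S Pool.PB
open Pool.GEN Pool.S6C Pool.STAT Pool.CHT Pool.GRW Pool.ONE Pool.STA
open Pool.LBT (LSys ThrOf)
open Pool.LEV (Law Lv)
open Pool.ALL (RateOf)
open Pool.TOP (TopS)
open Pool.RTS (iso Diag)
open Pool.STR (NumI CellD RowD NfB AffB Rle Nw ThinAt SteepAt StaAt)
open Pool.CHB (chsysB)
open Pool.STAT.CLO Pool.MIC6
open Pool.P4 (NFc1)

variable {n : ℕ} {hn : 2 ≤ n} {S : PCl n} {P : ℝ → ℝ → ℝ} {rr : ℝ → ℝ}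
  {P' : ℕ → List (Fin n) × Fin n → ℝ → ℝ → ℝ} {Λ : Finset (Fin n) → Fin n → ℝ → ℝ → ℝ}
  {PB : ℕ → List (Fin n) × Fin n → ℝ → ℝ → ℝ}
  (H : PkT hn S P rr P' Λ PB) (hTop : TopS n) (hF : FZX (n - 1)) {h x : ℝ}
  {ρ' : ℝ → ℝ} (hρ : Rle rr ρ')

/-- **The windows with the property `X` have no boxes**: they are covered by finitely many kinds
without boxes. -/
def NoB (h : ℝ) (X : Od n → ℝ → Prop) : Prop :=
  ∃ (ι : Type) (_ : Finite ι) (K : NumI.KndP ((H.nk hTop hF).chg hρ H.up) ι),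
    NoKd H K (fun _ _ _ => True) ∧ CovK K h X

/-- **Exactness** on the boxes of finitely many kinds which cover the windows with `X`. -/
def ExB (h : ℝ) (X : Od n → ℝ → Prop) : Prop :=
  ∃ (ι : Type) (_ : Finite ι) (K : NumI.KndP ((H.nk hTop hF).chg hρ H.up) ι),
    HasK H K (HypV _) ∧ CovK K h X

/-- **The closed lower bound** of the rows on the boxes of finitely many kinds which cover the
windows with `X`. -/
def FcB (h x : ℝ) (X : Od n → ℝ → Prop) : Prop :=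
  ∃ (ι : Type) (_ : Finite ι) (K : NumI.KndP ((H.nk hTop hF).chg hρ H.up) ι),
    HasK H K (fun _ p I => NfcI H p x I) ∧ CovK K h X

variable {H hTop hF hρ}

theorem CovK.mono {ι : Type} {K : NumI.KndP ((H.nk hTop hF).chg hρ H.up) ι}
    {X Y : Od n → ℝ → Prop} (hK : CovK K h X)
    (hY : ∀ o : Od n, ∀ᵐ g : ℝ, ((H.nk hTop hF).chg hρ H.up).RwD o g → Y o g → X o g) :
    CovK K h Y := fun o => by
  filter_upwards [hK o, hY o] with g h1 h2 R hrw hy
  exact h1 R hrw (h2 R hy)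

theorem CovK.sum {ι ι' : Type} {K : NumI.KndP ((H.nk hTop hF).chg hρ H.up) ι}
    {K' : NumI.KndP ((H.nk hTop hF).chg hρ H.up) ι'} {X Y : Od n → ℝ → Prop} (hK : CovK K h X)
    (hK' : CovK K' h Y) : CovK (K.sum K') h fun o g => X o g ∨ Y o g := fun o => by
  filter_upwards [hK o, hK' o] with g h1 h2 R hrw hy
  rcases hy with hy | hy
  · obtain ⟨x, hx⟩ := h1 R hrw hy
    exact ⟨Sum.inl x, NumI.KndP.At.inl hx⟩
  · obtain ⟨x, hx⟩ := h2 R hrw hy
    exact ⟨Sum.inr x, NumI.KndP.At.inr hx⟩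

theorem CovK.and {ι ι' : Type} {K : NumI.KndP ((H.nk hTop hF).chg hρ H.up) ι}
    {K' : NumI.KndP ((H.nk hTop hF).chg hρ H.up) ι'} {X Y : Od n → ℝ → Prop} (hK : CovK K h X)
    (hK' : CovK K' h Y) : CovK (K.and K') h fun o g => X o g ∧ Y o g := fun o => by
  filter_upwards [hK o, hK' o] with g h1 h2 R hrw hy
  obtain ⟨x, hx⟩ := h1 R hrw hy.1
  obtain ⟨y, hy⟩ := h2 R hrw hy.2
  exact ⟨(x, y), hx.and hy⟩

/-- The properties of the boxes from those of the windows of the first family. -/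
theorem HasK.of_fst {ι ι' : Type} {K : NumI.KndP ((H.nk hTop hF).chg hρ H.up) ι}
    {K' : NumI.KndP ((H.nk hTop hF).chg hρ H.up) ι'}
    {hyp : HypK (hTop := hTop) (hF := hF) (hρ := hρ) H ι} (h : HasK H K hyp) :
    HasK H (K.and K') fun x => hyp x.1 :=
  fun p hp _ kd x' x c β h₁ M hc hβ hK => h p hp kd x' x.1 c β h₁ M hc hβ
    ⟨fun ε q hq => (hK.A ε q hq).1, fun ε' hε' => (hK.Φ ε' hε').mono fun _ h => h.1⟩

/-- Kinds without boxes from their hypotheses. -/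
theorem NoKd.cut {ι : Type} {K : NumI.KndP ((H.nk hTop hF).chg hρ H.up) ι}
    {hyp : HypK (hTop := hTop) (hF := hF) (hρ := hρ) H ι} (h : NoKd H K hyp)
    (h' : HasK H K hyp) : NoKd H K (fun _ _ _ => True) :=
  fun p hp _ kd x' x c β h₁ M hc hβ hK _ =>
    h p hp kd x' x c β h₁ M hc hβ hK (h' p hp kd x' x c β h₁ M hc hβ hK)

theorem NoB.mono {X Y : Od n → ℝ → Prop} (hX : NoB H hTop hF hρ h X)
    (hY : ∀ o : Od n, ∀ᵐ g : ℝ, ((H.nk hTop hF).chg hρ H.up).RwD o g → Y o g → X o g) :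
    NoB H hTop hF hρ h Y := by
  obtain ⟨ι, f, K, h1, h2⟩ := hX
  exact ⟨ι, f, K, h1, h2.mono hY⟩

theorem NoB.or {X Y : Od n → ℝ → Prop} (hX : NoB H hTop hF hρ h X)
    (hY : NoB H hTop hF hρ h Y) : NoB H hTop hF hρ h fun o g => X o g ∨ Y o g := by
  obtain ⟨ι, f, K, h1, h2⟩ := hX
  obtain ⟨ι', f', K', h1', h2'⟩ := hY
  refine ⟨ι ⊕ ι', inferInstance, K.sum K', ?_, h2.sum h2'⟩
  exact (h1.sum h1').mono fun x _ _ _ => by cases x <;> trivial

theorem ExB.mono {X Y : Od n → ℝ → Prop} (hX : ExB H hTop hF hρ h X)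
    (hY : ∀ o : Od n, ∀ᵐ g : ℝ, ((H.nk hTop hF).chg hρ H.up).RwD o g → Y o g → X o g) :
    ExB H hTop hF hρ h Y := by
  obtain ⟨ι, f, K, h1, h2⟩ := hX
  exact ⟨ι, f, K, h1, h2.mono hY⟩

theorem ExB.or {X Y : Od n → ℝ → Prop} (hX : ExB H hTop hF hρ h X)
    (hY : ExB H hTop hF hρ h Y) : ExB H hTop hF hρ h fun o g => X o g ∨ Y o g := by
  obtain ⟨ι, f, K, h1, h2⟩ := hX
  obtain ⟨ι', f', K', h1', h2'⟩ := hY
  refine ⟨ι ⊕ ι', inferInstance, K.sum K', fun p hp _ kd x' x c β h₁ M hc hβ hK => ?_,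
    h2.sum h2'⟩
  have h3 := (h1.sum h1') p hp kd x' x c β h₁ M hc hβ hK
  cases x with
  | inl x => exact h3
  | inr x => exact h3

theorem FcB.mono {X Y : Od n → ℝ → Prop} (hX : FcB H hTop hF hρ h x X)
    (hY : ∀ o : Od n, ∀ᵐ g : ℝ, ((H.nk hTop hF).chg hρ H.up).RwD o g → Y o g → X o g) :
    FcB H hTop hF hρ h x Y := by
  obtain ⟨ι, f, K, h1, h2⟩ := hX
  exact ⟨ι, f, K, h1, h2.mono hY⟩

theorem FcB.or {X Y : Od n → ℝ → Prop} (hX : FcB H hTop hF hρ h x X)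
    (hY : FcB H hTop hF hρ h x Y) : FcB H hTop hF hρ h x fun o g => X o g ∨ Y o g := by
  obtain ⟨ι, f, K, h1, h2⟩ := hX
  obtain ⟨ι', f', K', h1', h2'⟩ := hY
  refine ⟨ι ⊕ ι', inferInstance, K.sum K', fun p hp _ kd x' x c β h₁ M hc hβ hK => ?_,
    h2.sum h2'⟩
  have h3 := (h1.sum h1') p hp kd x' x c β h₁ M hc hβ hK
  cases x with
  | inl x => exact h3
  | inr x => exact h3

/-- Windows without boxes from kinds without boxes and their hypotheses. -/
theorem noB_of {ι : Type} [Finite ι] {K : NumI.KndP ((H.nk hTop hF).chg hρ H.up) ι}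
    {hyp : HypK (hTop := hTop) (hF := hF) (hρ := hρ) H ι} (h1 : NoKd H K hyp)
    (h2 : HasK H K hyp) {X : Od n → ℝ → Prop} (h3 : CovK K h X) : NoB H hTop hF hρ h X :=
  ⟨ι, inferInstance, K, h1.cut h2, h3⟩

/-- There are no windows with `X`. -/
theorem noB_false {X : Od n → ℝ → Prop}
    (hX : ∀ o : Od n, ∀ᵐ g : ℝ, ((H.nk hTop hF).chg hρ H.up).RwD o g → X o g → False) :
    NoB H hTop hF hρ h X := by
  refine ⟨Unit, inferInstance, kpD H hTop hF hρ, nok_D _, fun o => ?_⟩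
  filter_upwards [hX o] with g h1 R _ hx
  exact absurd (h1 R hx) id

/-- **No boxes in a class**, if all windows have no boxes. -/
theorem NoB.noBS (hX : NoB H hTop hF hρ h fun _ _ => True)
    (hrow : ∀ᵐ Q : ℝ, deriv ρ' Q < 1 → h ≤ 1 - deriv rr Q) (hh : 0 < h) :
    ∃ p : ((H.nk hTop hF).chg hρ H.up).Par, p.cell.NoBS := by
  obtain ⟨ι, f, K, h1, h2⟩ := hX
  refine noBS_cls h1 hrow hh (fun o => ?_) fun _ _ _ _ _ _ _ _ _ _ _ _ _ => trivial
  filter_upwards [h2 o] with g h3 R hrw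
  exact h3 R hrw trivial

/-- The windows with slope one or a static threshold have no boxes. -/
theorem noB_D : NoB H hTop hF hρ h fun o g => slN hn P P' o (n - 1) g ≤ 1 ∨
    Sml fun r d => Box7 g r fun a w => P a a ≤ PT hn PB o a w + d := by
  refine ⟨Unit, inferInstance, kpD H hTop hF hρ, nok_D _, fun o => ?_⟩
  exact Eventually.of_forall fun g _ _ h4 => ⟨(), kpD_at H h4⟩

/-- The steep windows have no boxes. -/
theorem noB_S : NoB H hTop hF hρ h fun o g => SteepAt 2 (PT hn PB o) g := by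
  refine ⟨Unit, inferInstance, kpS H hTop hF hρ, nok_S _, fun o => ?_⟩
  exact Eventually.of_forall fun g _ _ h4 => ⟨(), kpS_at H h4⟩

/-- A window without ties. -/
def NtW (hn : 2 ≤ n) (P : ℝ → ℝ → ℝ) (P' : ℕ → List (Fin n) × Fin n → ℝ → ℝ → ℝ) (o : Od n)
    (g : ℝ) : Prop := ∀ l < n - 1, slN hn P P' o l g ≠ slN hn P P' o (n - 1) g

/-- **The windows without ties have no boxes**, if there is exactness. -/
theorem noB_V (hV : MicOf CondV) (hh : 0 < h) (hh1 : h ≤ 1) {X : Od n → ℝ → Prop}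
    (hE : ExB H hTop hF hρ h X) : NoB H hTop hF hρ h fun o g => NtW hn P P' o g ∧ X o g := by
  obtain ⟨ι, f, K, h1, h2⟩ := hE
  refine noB_of (K := (kpV H hTop hF hρ h).and K) ((nok_V hV hh hh1).and K) h1.of_snd
    (CovK.and (fun o => ?_) h2)
  exact Eventually.of_forall fun g _ hrw h3 => ⟨(), kpV_at H h3 hrw⟩

/-- Exactness and the closed lower bound together. -/
theorem ExB.and {X Y : Od n → ℝ → Prop} (hX : ExB H hTop hF hρ h X)
    (hY : FcB H hTop hF hρ h x Y) :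
    ∃ (ι : Type) (_ : Finite ι) (K : NumI.KndP ((H.nk hTop hF).chg hρ H.up) ι),
      HasK H K (HypP _ x) ∧ CovK K h fun o g => X o g ∧ Y o g := by
  obtain ⟨ι, f, K, h1, h2⟩ := hX
  obtain ⟨ι', f', K', h1', h2'⟩ := hY
  refine ⟨ι × ι', inferInstance, K.and K', fun p hp _ kd x' x c β h₁ M hc hβ hK => ?_,
    h2.and h2'⟩
  have e1 := h1.of_fst (K' := K') p hp kd x' x c β h₁ M hc hβ hK
  exact ⟨e1.1, e1.2, h1'.of_snd (K := K) p hp kd x' x c β h₁ M hc hβ hK⟩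

/-- **The windows with ties covered by P4 and P5 have no boxes.** -/
theorem noB_P (hh : 0 < h) (hh1 : h ≤ 1)
    (h4 : ∀ (K' : ℕ) (R : ℕ → Prop) (c : ℝ), 0 < c → MicX (XP4 K' 1 R x)
      (QT R (n - 1 + 1) c) (fun B => B = n + 2) (n - 1 + 1) K' h)
    (h5 : ∀ (K' : ℕ) (R : ℕ → Prop), MicX (XP4 K' 1 R x)
      (Q5 R (n - 1 + 1)) (fun B => B = n + 2) (n - 1 + 1) K' h)
    {PW : ℕ → List (Fin n) × Fin n → ℝ → ℝ → ℝ}
    (hPW : ∀ j, ThrOf (chsysB n none (P' j)) S (PW j)) {X Y : Od n → ℝ → Prop}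
    (hX : ExB H hTop hF hρ h X) (hY : FcB H hTop hF hρ h x Y) :
    NoB H hTop hF hρ h fun o g => (TieT hn P P' PB o g ∧ CovW hn P P' PB o g) ∧
      (X o g ∧ Y o g) := by
  obtain ⟨ιE, fE, KE, hE, hcE⟩ := hX.and hY
  have nT := (nok_R (H := H) (hTop := hTop) (hF := hF) (hρ := hρ) (x' := x)
    (fun K' c hc => h4 K' _ c hc) hh hh1).sum
    ((nok_5 (H := H) (hTop := hTop) (hF := hF) (hρ := hρ) (x' := x)
      (fun K' => h5 K' _) hh hh1).sum
    ((nok_D4 (H := H) (hTop := hTop) (hF := hF) (hρ := hρ) (x' := x) hPW h4 hh hh1).sum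
    (nok_E5 (H := H) (hTop := hTop) (hF := hF) (hρ := hρ) (x' := x) hPW h5 hh hh1)))
  refine noB_of (nT.and KE) ?_ (CovK.and (fun o => ?_) hcE)
  · intro p hp κ kd y x' c β h₁ M hc hβ hK
    have hK' : OnK H KE p x'.2 c (IsK p.cell kd c β h₁ M y) :=
      ⟨fun ε q hq => (hK.A ε q hq).2, fun ε' hε' => (hK.Φ ε' hε').mono fun _ h => h.2⟩
    have h6 := hE p hp kd y x'.2 c β h₁ M hc hβ hK'
    rcases x' with ⟨x' | x' | x' | x', xE⟩ <;> exact h6
  filter_upwards [slo_two H hTop hF,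
      H.rgh_ae hTop hF (be := fun j => bi P' j) (PW := PB) H.thb, H.rgh_ae hTop hF hPW,
      H.gnW_ae hTop hF, H.dia_all H.pble hTop hF]
      with g ktwo krB krW kgn kdia R hrw hX
  obtain ⟨hT, hcov⟩ := hX
  have ho := R.mem
  have hths := hT.ths
  have hall : (∀ l < n - 1, ThN hn P P' PB o l g) → Sl4 hn P P' o g ∨ Sl35 hn P P' o g →
      ∃ x, ((kpR H hTop hF hρ h).sum ((kp5 H hTop hF hρ h).sum
        ((kpC H hTop hF hρ h PW (SlD hn P P')).sum
          (kpC H hTop hF hρ h PW (SlE hn P P'))))).At x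
        (show ((H.nk hTop hF).chg hρ H.up).O from o) g := fun hth hsl => by
    rcases hsl with hsl | hsl
    · exact ⟨Sum.inl (Finset.univ : Finset (Fin n)), NumI.KndP.At.inl
        (kpR_at hsl hrw fun l hl => krB o ho l hl.le (hth l hl))⟩
    · exact ⟨Sum.inr (Sum.inl (Finset.univ : Finset (Fin n))), NumI.KndP.At.inr
        (NumI.KndP.At.inl (kp5_at H hsl.1 hsl.2 hrw fun l hl => krB o ho l hl.le (hth l hl)))⟩
  rcases hcov with hcov | ⟨l₀, hl₀, hth, hsl⟩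
  · exact hall hcov.1 hcov.2
  by_cases hth₀ : ThN hn P P' PB o l₀ g
  · refine hall (fun l hl => ?_) (hsl.imp id fun h => h.1)
    by_cases h6 : l = l₀
    · rwa [h6]
    · exact hth l hl h6
  obtain ⟨hsta, h2⟩ := ktwo o ho l₀ hl₀ (fun k hk => hths k (hk.trans hl₀)) (hths l₀ hl₀) hth₀
  have hrgh : ∀ l ≤ n - 1, l ≠ l₀ → Sml fun r d => Box7 g r fun a w =>
      bet (PW o.2) (cc hn o.1.1) l a w ≤ dgN hn P P' o l w + (a - w) + d := fun l hl hll => by
    refine krW o ho l hl ?_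
    rcases hl.lt_or_eq with h6 | rfl
    · exact hth l h6 hll
    · have eL : LvL hn P P' o (n - 1) = P := by
        funext a w
        exact LvL_top o a w
      rw [eL, LvT_top]
      exact hT.thin
  have hdif : DifferentiableAt ℝ (dgN hn P P' o l₀) g := by
    have h6 : dgN hn P P' o l₀ = fun a => LvL hn P P' o l₀ a a :=
      funext fun a => dgN_LvL o hl₀.le a
    rw [h6]
    exact (kdia o ho l₀ hl₀.le).1
  have hsta' : StaAt (bet (P' o.2) (cc hn o.1.1) l₀) g := by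
    have h6 : LvL hn P P' o l₀ = bet (P' o.2) (cc hn o.1.1) l₀ := by
      funext a w
      exact LvL_lt o hl₀ a w
    rwa [h6] at hsta
  have hcon := con_sml hl₀ hdif h2 hsta'
  have hgn := kgn o ho l₀ hl₀ (fun k hk => hth k (hk.trans hl₀) (by omega)) hsta h2
  rcases hsl with hsl | ⟨hsl, h3⟩
  · exact ⟨Sum.inr (Sum.inr (Sum.inl ⟨l₀, hl₀⟩)), NumI.KndP.At.inr
      (NumI.KndP.At.inr (NumI.KndP.At.inl (kpC_at (l₀ := ⟨l₀, hl₀⟩) (slD_at h2 hsl)
        (srt_gs H.toPk hTop hF ho) hrw hrgh hcon hgn)))⟩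
  · exact ⟨Sum.inr (Sum.inr (Sum.inr ⟨l₀, hl₀⟩)), NumI.KndP.At.inr
      (NumI.KndP.At.inr (NumI.KndP.At.inr (kpC_at (l₀ := ⟨l₀, hl₀⟩)
        ⟨1, one_pos, fun _ _ _ => ⟨h3, hsl.1, hsl.2⟩⟩
        (srt_gs H.toPk hTop hF ho) hrw hrgh hcon hgn)))⟩

end Pool.PKG
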